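import Mathlib
import Pool.Agent.W307.LS.Stm

set_option autoImplicit false

namespace Pool.Agent.W636.LS

open WeierstrassCurve WeierstrassCurve.Affine

section

variable {L : Type} [Field L] [DecidableEq L] [CharZero L] {W : WeierstrassCurve.Affine L}

lemma eq_iff (h1 : W.a₁ = 0) (h3 : W.a₃ = 0) (h6 : W.a₆ = 0) (x y : L) :
    W.Equation x y ↔ y ^ 2 = x ^ 3 + W.a₂ * x ^ 2 + W.a₄ * x := by
  rw [Affine.equation_iff, h1, h3, h6]
  constructor <;> intro h <;> linear_combination h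

lemma negY_eq (h1 : W.a₁ = 0) (h3 : W.a₃ = 0) (x y : L) : W.negY x y = -y := by
  simp [Affine.negY, h1, h3]

lemma some_congr {x x' y y' : L} (n : W.Nonsingular x y) (n' : W.Nonsingular x' y') (hx : x = x')
    (hy : y = y') : Point.some x y n = Point.some x' y' n' := by
  subst hx; subst hy; rfl

lemma neg_eq (h1 : W.a₁ = 0) (h3 : W.a₃ = 0) {x y : L} (n : W.Nonsingular x y)
    (n' : W.Nonsingular x (-y)) : -Point.some x y n = Point.some x (-y) n' := by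
  rw [Point.neg_some]
  exact some_congr _ _ rfl (negY_eq h1 h3 x y)

lemma col_coeff (h1 : W.a₁ = 0) (h3 : W.a₃ = 0) (h6 : W.a₆ = 0) {x₁ x₂ y₁ y₂ : L}
    (e₁ : W.Equation x₁ y₁) (e₂ : W.Equation x₂ y₂) (hxy : ¬(x₁ = x₂ ∧ y₁ = W.negY x₂ y₂)) :
    ∃ l m : L, l = W.slope x₁ x₂ y₁ y₂ ∧ y₁ = l * x₁ + m ∧ y₂ = l * x₂ + m ∧
      W.negAddY x₁ x₂ y₁ l = l * W.addX x₁ x₂ l + m ∧
      x₁ + x₂ + W.addX x₁ x₂ l = l ^ 2 - W.a₂ ∧
      x₁ * x₂ + x₁ * W.addX x₁ x₂ l + x₂ * W.addX x₁ x₂ l = W.a₄ - 2 * l * m ∧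
      x₁ * x₂ * W.addX x₁ x₂ l = m ^ 2 := by
  have hp := W.addPolynomial_slope e₁ e₂ hxy
  set l := W.slope x₁ x₂ y₁ y₂ with hl
  have hX : W.addX x₁ x₂ l = l ^ 2 - W.a₂ - x₁ - x₂ := by
    simp [Affine.addX, h1]
  have h0 := congrArg (Polynomial.eval 0) hp
  have h1' := congrArg (Polynomial.eval 1) hp
  rw [Affine.addPolynomial_eq, Cubic.toPoly] at h0 h1'
  simp only [h1, h3, h6, Polynomial.eval_neg, Polynomial.eval_add, Polynomial.eval_sub,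
    Polynomial.eval_mul, Polynomial.eval_pow, Polynomial.eval_C, Polynomial.eval_X] at h0 h1'
  refine ⟨l, y₁ - l * x₁, rfl, by ring, ?_, ?_, by rw [hX]; ring, ?_, ?_⟩
  · by_cases hx : x₁ = x₂
    · have hy : y₁ ≠ W.negY x₂ y₂ := fun h => hxy ⟨hx, h⟩
      have := Affine.Y_eq_of_Y_ne e₁ e₂ hx hy
      rw [this, hx]; ring
    · have : l = (y₁ - y₂) / (x₁ - x₂) := by rw [hl, Affine.slope_of_X_ne hx]
      have h' : x₁ - x₂ ≠ 0 := sub_ne_zero.mpr hx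
      rw [this]; field_simp; ring
  · simp [Affine.negAddY]; ring
  · rw [hX] at h0 h1' ⊢
    linear_combination h1' - h0
  · linear_combination -h0

lemma col_sum (h1 : W.a₁ = 0) (h3 : W.a₃ = 0) (h6 : W.a₆ = 0) {x₁ x₂ x₃ y₁ y₂ y₃ l m : L}
    (n₁ : W.Nonsingular x₁ y₁) (n₂ : W.Nonsingular x₂ y₂) (n₃ : W.Nonsingular x₃ y₃)
    (q₁ : y₁ = l * x₁ + m) (q₂ : y₂ = l * x₂ + m) (q₃ : y₃ = l * x₃ + m)
    (E1 : x₁ + x₂ + x₃ = l ^ 2 - W.a₂)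
    (E2 : x₁ * x₂ + x₁ * x₃ + x₂ * x₃ = W.a₄ - 2 * l * m)
    (E3 : x₁ * x₂ * x₃ = m ^ 2) :
    Point.some _ _ n₁ + Point.some _ _ n₂ + Point.some _ _ n₃ = 0 := by
  have key : ∀ (hxy : ¬(x₁ = x₂ ∧ y₁ = W.negY x₂ y₂)), W.slope x₁ x₂ y₁ y₂ = l →
      Point.some _ _ n₁ + Point.some _ _ n₂ + Point.some _ _ n₃ = 0 := by
    intro hxy hs
    have hs' : Point.some _ _ n₁ + Point.some _ _ n₂ = -Point.some _ _ n₃ := by
      rw [Point.add_some hxy, Point.neg_some]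
      have hX : W.addX x₁ x₂ (W.slope x₁ x₂ y₁ y₂) = x₃ := by
        rw [hs]; simp only [Affine.addX, h1]; linear_combination -E1
      have hY : W.negAddY x₁ x₂ y₁ (W.slope x₁ x₂ y₁ y₂) = y₃ := by
        rw [Affine.negAddY, hX, hs, q₁, q₃]; ring
      refine some_congr _ _ hX ?_
      rw [Affine.addY, hX, hY]
    rw [hs']; exact neg_add_cancel _
  by_cases hx : x₁ = x₂
  · have hy : y₁ = y₂ := by rw [q₁, q₂, hx]
    have hD : 3 * x₁ ^ 2 + 2 * W.a₂ * x₁ + W.a₄ = 2 * l * y₁ := by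
      subst hx
      rw [q₁]
      linear_combination (2 * x₁) * E1 - (1 : L) * E2
    have hy0 : y₁ ≠ 0 := by
      intro h0
      have := (Affine.nonsingular_iff' (W := W) x₁ y₁).mp n₁
      rw [h1, h3] at this
      rcases this.2 with h | h
      · apply h
        rw [h0] at hD ⊢
        linear_combination -hD
      · apply h; rw [h0]; ring
    have hne : ¬ (y₁ = W.negY x₂ y₂) := by
      rw [negY_eq h1 h3, ← hy]
      intro h
      apply hy0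
      have : (2 : L) * y₁ = 0 := by linear_combination h
      exact (mul_eq_zero.mp this).resolve_left two_ne_zero
    apply key (fun h => hne h.2)
    rw [Affine.slope_of_Y_ne hx hne, negY_eq h1 h3, h1]
    have h2 : y₁ - -y₁ ≠ 0 := by
      intro h
      apply hy0
      have : (2 : L) * y₁ = 0 := by linear_combination h
      exact (mul_eq_zero.mp this).resolve_left two_ne_zero
    rw [div_eq_iff h2]
    linear_combination hD
  · apply key (fun h => hx h.1)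
    rw [Affine.slope_of_X_ne hx, div_eq_iff (sub_ne_zero.mpr hx), q₁, q₂]
    ring

/-- the hypotheses on the two curves -/
structure Hyp (W W' : WeierstrassCurve.Affine L) : Prop where
  h1 : W.a₁ = 0
  h3 : W.a₃ = 0
  h6 : W.a₆ = 0
  h4 : W.a₄ ≠ 0
  k1 : W'.a₁ = 0
  k3 : W'.a₃ = 0
  k6 : W'.a₆ = 0
  k2 : W'.a₂ = -2 * W.a₂
  k4 : W'.a₄ = W.a₂ ^ 2 - 4 * W.a₄
  k0 : W'.a₄ ≠ 0

variable {W' : WeierstrassCurve.Affine L}

lemma img (H : Hyp W W') {x y : L} (h : W.Nonsingular x y) (hx : x ≠ 0) :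
    W'.Nonsingular (y ^ 2 / x ^ 2) (y * (W.a₄ - x ^ 2) / x ^ 2) := by
  have hΔ : W'.Δ ≠ 0 := by
    have : W'.Δ = 256 * W'.a₄ ^ 2 * W.a₄ := by
      simp only [WeierstrassCurve.Δ, WeierstrassCurve.b₂, WeierstrassCurve.b₄,
        WeierstrassCurve.b₆, WeierstrassCurve.b₈]
      rw [H.k1, H.k3, H.k6, H.k2, H.k4]
      ring
    rw [this]
    exact mul_ne_zero (mul_ne_zero (by norm_num) (pow_ne_zero _ H.k0)) H.h4
  rw [← Affine.equation_iff_nonsingular_of_Δ_ne_zero hΔ, eq_iff H.k1 H.k3 H.k6, H.k2, H.k4]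
  have he := (eq_iff H.h1 H.h3 H.h6 x y).mp h.1
  have hX : y ^ 2 / x ^ 2 = x + W.a₂ + W.a₄ / x := by
    rw [he]; field_simp
  have hY : (y * (W.a₄ - x ^ 2) / x ^ 2) ^ 2 = y ^ 2 / x ^ 2 * ((W.a₄ - x ^ 2) / x) ^ 2 := by
    field_simp
  rw [hY, hX]
  field_simp
  ring

/-- the isogeny -/
noncomputable def phi (H : Hyp W W') : W.Point → W'.Point
  | Point.zero => 0
  | Point.some x _ h => if hx : x = 0 then 0 else Point.some _ _ (img H h hx)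

lemma phi_zero (H : Hyp W W') : phi H 0 = 0 := rfl

lemma phi_of_eq (H : Hyp W W') {x y : L} (h : W.Nonsingular x y) (hx : x = 0) :
    phi H (Point.some x y h) = 0 := by
  simp [phi, hx]

lemma phi_of_ne (H : Hyp W W') {x y : L} (h : W.Nonsingular x y) (hx : x ≠ 0) :
    phi H (Point.some x y h) = Point.some _ _ (img H h hx) := by
  simp [phi, hx]

lemma phi_neg (H : Hyp W W') (P : W.Point) : phi H (-P) = -phi H P := by
  rcases P with _ | ⟨x, y, h⟩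
  · rfl
  · rw [Point.neg_some]
    by_cases hx : x = 0
    · rw [phi_of_eq H _ hx, phi_of_eq H _ hx]; rfl
    · rw [phi_of_ne H _ hx, phi_of_ne H _ hx, Point.neg_some]
      refine some_congr _ _ ?_ ?_
      · rw [negY_eq H.h1 H.h3]; ring
      · rw [negY_eq H.h1 H.h3, negY_eq H.k1 H.k3]; ring

lemma y_zero (H : Hyp W W') {y : L} (h : W.Nonsingular 0 y) : y = 0 := by
  have := (eq_iff H.h1 H.h3 H.h6 0 y).mp h.1
  simpa using this

lemma phi_T_add (H : Hyp W W') {y₀ : L} (h₀ : W.Nonsingular 0 y₀) (P : W.Point) :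
    phi H (Point.some 0 y₀ h₀ + P) = phi H P := by
  rcases P with _ | ⟨x, y, h⟩
  · change phi H (Point.some 0 y₀ h₀ + 0) = phi H 0
    rw [add_zero, phi_of_eq H h₀ rfl]; rfl
  · have hy₀ := y_zero H h₀
    subst hy₀
    by_cases hx : x = 0
    · subst hx
      have hy := y_zero H h
      subst hy
      rw [Point.add_of_Y_eq rfl (by rw [negY_eq H.h1 H.h3]; ring), phi_of_eq H h rfl]; rfl
    · have he := (eq_iff H.h1 H.h3 H.h6 x y).mp h.1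
      rw [Point.add_of_X_ne (Ne.symm hx)]
      have hs : W.slope 0 x 0 y = y / x := by
        rw [Affine.slope_of_X_ne (Ne.symm hx), zero_sub, zero_sub, neg_div_neg_eq]
      have hX : W.addX 0 x (W.slope 0 x 0 y) = W.a₄ / x := by
        rw [hs]; simp only [Affine.addX, H.h1]
        field_simp
        linear_combination he
      have hX0 : W.addX 0 x (W.slope 0 x 0 y) ≠ 0 := by
        rw [hX]; exact div_ne_zero H.h4 hx
      have hY : W.addY 0 x 0 (W.slope 0 x 0 y) = -(W.a₄ * y / x ^ 2) := by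
        rw [Affine.addY, negY_eq H.h1 H.h3, Affine.negAddY, hX, hs]
        field_simp
        ring
      rw [phi_of_ne H _ hX0, phi_of_ne H _ hx]
      have h4 := H.h4
      refine some_congr _ _ ?_ ?_
      · rw [hX, hY]; field_simp
      · rw [hX, hY]; field_simp; ring

lemma img_line {a b x y l m : L} (he : y ^ 2 = x ^ 3 + a * x ^ 2 + b * x) (q : y = l * x + m)
    (hx : x ≠ 0) (hm : m ≠ 0) :
    y * (b - x ^ 2) / x ^ 2 =
      (b / m - l) * (y ^ 2 / x ^ 2) + (-(b * l ^ 2 / m - a * l + m)) := by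
  have : m * (y * (b - x ^ 2)) =
      (b - l * m) * y ^ 2 - (b * l ^ 2 - a * l * m + m ^ 2) * x ^ 2 := by
    subst q
    linear_combination (l * m) * he
  field_simp
  linear_combination this

lemma img_E {a b x₁ x₂ x₃ y₁ y₂ y₃ l m : L}
    (q₁ : y₁ = l * x₁ + m) (q₂ : y₂ = l * x₂ + m) (q₃ : y₃ = l * x₃ + m)
    (hx₁ : x₁ ≠ 0) (hx₂ : x₂ ≠ 0) (hx₃ : x₃ ≠ 0) (hm : m ≠ 0)
    (E1 : x₁ + x₂ + x₃ = l ^ 2 - a)
    (E2 : x₁ * x₂ + x₁ * x₃ + x₂ * x₃ = b - 2 * l * m)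
    (E3 : x₁ * x₂ * x₃ = m ^ 2) :
    (y₁ ^ 2 / x₁ ^ 2 + y₂ ^ 2 / x₂ ^ 2 + y₃ ^ 2 / x₃ ^ 2 = (b / m - l) ^ 2 - -2 * a) ∧
    (y₁ ^ 2 / x₁ ^ 2 * (y₂ ^ 2 / x₂ ^ 2) + y₁ ^ 2 / x₁ ^ 2 * (y₃ ^ 2 / x₃ ^ 2) +
      y₂ ^ 2 / x₂ ^ 2 * (y₃ ^ 2 / x₃ ^ 2) =
      (a ^ 2 - 4 * b) - 2 * (b / m - l) * (-(b * l ^ 2 / m - a * l + m))) ∧
    (y₁ ^ 2 / x₁ ^ 2 * (y₂ ^ 2 / x₂ ^ 2) * (y₃ ^ 2 / x₃ ^ 2) =
      (-(b * l ^ 2 / m - a * l + m)) ^ 2) := by
  have w₁ : y₁ ^ 2 / x₁ ^ 2 = (l + m * (1 / x₁)) ^ 2 := by rw [q₁]; field_simp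
  have w₂ : y₂ ^ 2 / x₂ ^ 2 = (l + m * (1 / x₂)) ^ 2 := by rw [q₂]; field_simp
  have w₃ : y₃ ^ 2 / x₃ ^ 2 = (l + m * (1 / x₃)) ^ 2 := by rw [q₃]; field_simp
  have s1 : 1 / x₁ + 1 / x₂ + 1 / x₃ = (b - 2 * l * m) / m ^ 2 := by
    rw [← E2, ← E3]; field_simp; ring
  have s2 : 1 / x₁ * (1 / x₂) + 1 / x₁ * (1 / x₃) + 1 / x₂ * (1 / x₃) = (l ^ 2 - a) / m ^ 2 := by
    rw [← E1, ← E3]; field_simp; ring
  have s3 : 1 / x₁ * (1 / x₂) * (1 / x₃) = 1 / m ^ 2 := by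
    rw [← E3]; field_simp
  rw [w₁, w₂, w₃]
  generalize 1 / x₁ = u₁ at *
  generalize 1 / x₂ = u₂ at *
  generalize 1 / x₃ = u₃ at *
  have t1 : (l + m * u₁) + (l + m * u₂) + (l + m * u₃) = b / m + l := by
    have : (l + m * u₁) + (l + m * u₂) + (l + m * u₃) = 3 * l + m * (u₁ + u₂ + u₃) := by ring
    rw [this, s1]; field_simp; ring
  have t2 : (l + m * u₁) * (l + m * u₂) + (l + m * u₁) * (l + m * u₃) +
      (l + m * u₂) * (l + m * u₃) = 2 * l * b / m - a := by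
    have : (l + m * u₁) * (l + m * u₂) + (l + m * u₁) * (l + m * u₃) +
      (l + m * u₂) * (l + m * u₃) = 3 * l ^ 2 + 2 * l * m * (u₁ + u₂ + u₃) +
        m ^ 2 * (u₁ * u₂ + u₁ * u₃ + u₂ * u₃) := by ring
    rw [this, s1, s2]; field_simp; ring
  have t3 : (l + m * u₁) * (l + m * u₂) * (l + m * u₃) = b * l ^ 2 / m - a * l + m := by
    have : (l + m * u₁) * (l + m * u₂) * (l + m * u₃) = l ^ 3 + l ^ 2 * m * (u₁ + u₂ + u₃) +
        l * m ^ 2 * (u₁ * u₂ + u₁ * u₃ + u₂ * u₃) + m ^ 3 * (u₁ * u₂ * u₃) := by ring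
    rw [this, s1, s2, s3]; field_simp; ring
  generalize l + m * u₁ = v₁ at *
  generalize l + m * u₂ = v₂ at *
  generalize l + m * u₃ = v₃ at *
  refine ⟨?_, ?_, ?_⟩
  · have : v₁ ^ 2 + v₂ ^ 2 + v₃ ^ 2 = (v₁ + v₂ + v₃) ^ 2 - 2 * (v₁ * v₂ + v₁ * v₃ + v₂ * v₃) := by
      ring
    rw [this, t1, t2]; field_simp; ring
  · have : v₁ ^ 2 * v₂ ^ 2 + v₁ ^ 2 * v₃ ^ 2 + v₂ ^ 2 * v₃ ^ 2 =
        (v₁ * v₂ + v₁ * v₃ + v₂ * v₃) ^ 2 - 2 * (v₁ * v₂ * v₃) * (v₁ + v₂ + v₃) := by ring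
    rw [this, t1, t2, t3]; field_simp; ring
  · have : v₁ ^ 2 * v₂ ^ 2 * v₃ ^ 2 = (v₁ * v₂ * v₃) ^ 2 := by ring
    rw [this, t3]; ring

theorem phi_add (H : Hyp W W') (P Q : W.Point) : phi H (P + Q) = phi H P + phi H Q := by
  rcases P with _ | ⟨x₁, y₁, n₁⟩
  · change phi H (0 + Q) = phi H 0 + phi H Q
    rw [phi_zero, zero_add, zero_add]
  rcases Q with _ | ⟨x₂, y₂, n₂⟩
  · change phi H (Point.some x₁ y₁ n₁ + 0) = phi H (Point.some x₁ y₁ n₁) + phi H 0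
    rw [phi_zero, add_zero, add_zero]
  by_cases hx₁ : x₁ = 0
  · subst hx₁
    rw [phi_T_add H, phi_of_eq H n₁ rfl, zero_add]
  by_cases hx₂ : x₂ = 0
  · subst hx₂
    rw [add_comm, phi_T_add H, phi_of_eq H n₂ rfl, add_zero]
  by_cases hxy : x₁ = x₂ ∧ y₁ = W.negY x₂ y₂
  · have : Point.some x₁ y₁ n₁ = -Point.some x₂ y₂ n₂ := by
      rw [Point.neg_some]; exact some_congr _ _ hxy.1 hxy.2
    rw [this, phi_neg, neg_add_cancel, neg_add_cancel, phi_zero]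
  obtain ⟨l, m, hl, q₁, q₂, q₃, E1, E2, E3⟩ := col_coeff H.h1 H.h3 H.h6 n₁.1 n₂.1 hxy
  have n₃' := Affine.nonsingular_negAdd n₁ n₂ hxy
  have hsum' : Point.some x₁ y₁ n₁ + Point.some x₂ y₂ n₂ = -Point.some _ _ n₃' := by
    rw [Point.add_some hxy, Point.neg_some]; rfl
  rw [← hl] at n₃'
  obtain ⟨x₃, hx₃⟩ : ∃ x₃, x₃ = W.addX x₁ x₂ l := ⟨_, rfl⟩
  obtain ⟨y₃, hy₃⟩ : ∃ y₃, y₃ = W.negAddY x₁ x₂ y₁ l := ⟨_, rfl⟩
  have n₃ : W.Nonsingular x₃ y₃ := by rw [hx₃, hy₃]; exact n₃'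
  have hsum : Point.some x₁ y₁ n₁ + Point.some x₂ y₂ n₂ = -Point.some _ _ n₃ := by
    rw [hsum']; congr 1; refine some_congr _ _ ?_ ?_
    · rw [hx₃, hl]
    · rw [hy₃, hl]
  rw [← hx₃] at E1 E2 E3 q₃
  rw [← hy₃] at q₃
  clear hsum' n₃'
  by_cases h30 : x₃ = 0
  · subst h30
    have h2 : Point.some x₂ y₂ n₂ = -(Point.some 0 y₃ n₃ + Point.some x₁ y₁ n₁) := by
      rw [neg_add_rev, ← hsum]; abel
    have h3 : phi H (Point.some x₂ y₂ n₂) = -phi H (Point.some x₁ y₁ n₁) := by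
      rw [h2, phi_neg, phi_T_add H]
    rw [hsum, h3, phi_neg, phi_of_eq H n₃ rfl]
    simp
  have hm : m ≠ 0 := by
    rintro rfl
    have : x₁ * x₂ * x₃ ≠ 0 := mul_ne_zero (mul_ne_zero hx₁ hx₂) h30
    apply this; rw [E3]; ring
  obtain ⟨F1, F2, F3⟩ := img_E q₁ q₂ q₃ hx₁ hx₂ h30 hm E1 E2 E3
  have r₁ := img_line ((eq_iff H.h1 H.h3 H.h6 x₁ y₁).mp n₁.1) q₁ hx₁ hm
  have r₂ := img_line ((eq_iff H.h1 H.h3 H.h6 x₂ y₂).mp n₂.1) q₂ hx₂ hm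
  have r₃ := img_line ((eq_iff H.h1 H.h3 H.h6 x₃ y₃).mp n₃.1) q₃ h30 hm
  have hc := col_sum H.k1 H.k3 H.k6 (img H n₁ hx₁) (img H n₂ hx₂) (img H n₃ h30) r₁ r₂ r₃
    (by rw [H.k2]; exact F1) (by rw [H.k4]; exact F2) F3
  rw [hsum, phi_neg, phi_of_ne H n₁ hx₁, phi_of_ne H n₂ hx₂, phi_of_ne H n₃ h30]
  exact (eq_neg_of_add_eq_zero_left hc).symm

end

/-- ISO: the 2-isogeny is a homomorphism. -/
theorem iso : Pool.Agent.W307.LS.ISO := by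
  intro L _ _ _ W W' h1 h3 h6 h4 k1 k3 k6 k2 k4 k0
  have H : Hyp W W' := ⟨h1, h3, h6, h4, k1, k3, k6, k2, k4, k0⟩
  refine ⟨AddMonoidHom.mk' (phi H) (phi_add H), ?_, ?_⟩
  · intro x y h hx
    exact ⟨img H h hx, phi_of_ne H h hx⟩
  · intro y h
    exact phi_of_eq H h rfl

end Pool.Agent.W636.LS
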